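import Pool.Agent.Helper85.OA.Sgm
import Pool.Agent.Helper84.MT.Def

/-! OA (algebraic charts of leaves), step 5: leaves with algebraic charts, `Leaf.ofAlg`, `Leaf.ofAlgRe`. -/

set_option autoImplicit false

namespace Pool.Agent.Helper85.OA

open Finset Filter Topology Pool.Agent.Helper69.RK Pool.Agent.Helper31.EC Pool.Agent.Helper31.EC.Sp
open Pool.Agent.Helper40.EL Pool.Agent.Helper89.LX Pool.Agent.Helper3.LF Pool.Agent.Helper84.MT
open Pool.Agent.Helper95.LF (PdM)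
open Pool.Agent.Helper76.RL (ev)

noncomputable section

theorem ACh.mono {e K g g' : ℕ} (hg : g ≤ g') {c : Fin e → ℝ} {G : Fin K → (Fin e → ℂ) → ℂ}
    {q : Fin K → Polynomial (MvPolynomial (Fin e) ℂ)} (h : ACh g c G q) : ACh g' c G q :=
  ⟨h.hol, fun j => (h.deg j).trans hg, fun j i => (h.degc j i).trans hg, h.root, h.simple⟩

/-- a filtered differential algebra with a slower filtration -/
theorem alg_scale {e : ℕ} {c : Fin e → ℝ} {al : ℕ → Set ((Fin e → ℝ) → ℝ)} (h : Alg e c al) {κ : ℕ} (hκ : 1 ≤ κ) :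
    Alg e c (fun D => al (κ * D)) where
  const := fun a => by
    rw [mul_zero]
    exact h.const a
  add := fun D f g hf hg => h.add _ f g hf hg
  mul := fun D D' f g hf hg => by
    rw [mul_add]
    exact h.mul _ _ f g hf hg
  mono := fun D D' hD => h.mono _ _ (Nat.mul_le_mul_left _ hD)
  crd := fun i => h.mono 1 _ (by omega) (h.crd i)
  der := fun D f hf i => by
    obtain ⟨g, hg, hd⟩ := h.der _ f hf i
    exact ⟨g, h.mono _ _ (by rw [mul_add]; omega) hg, hd⟩

/-- COMPLEXITY of algebraic leaves: dimension at most `m`, `K` generators of degree at most `g` -/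
def cA (m K g : ℕ) : ℕ := (Finset.range (m + 1)).sup fun e => c0 e K g

theorem c0_le {e m : ℕ} (K g : ℕ) (h : e ≤ m) : c0 e K g ≤ cA m K g :=
  Finset.le_sup (f := fun e => c0 e K g) (Finset.mem_range.mpr (Nat.lt_succ_of_le h))

theorem cA_mono {m m' : ℕ} (K g : ℕ) (h : m ≤ m') : cA m K g ≤ cA m' K g :=
  Finset.sup_mono (Finset.range_subset_range.mpr (Nat.succ_le_succ h))

theorem cA_ge {e m : ℕ} (K g : ℕ) (h : e ≤ m) : e ≤ cA m K g :=
  le_trans (by unfold c0; omega) (c0_le K g h)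

variable {S : Sp} {M : ℕ}

/-- ALGEBRAIC LEAVES, general form: the chart is in the class of `K` algebraic generators, degree `κ` -/
def _root_.Pool.Agent.Helper84.MT.Leaf.ofAlgG {Q : S.VV M} (m g K κ : ℕ) (hκ : 1 ≤ κ) (e : ℕ) (he : e ≤ m)
    (La : ∀ k, Setoid (S.F k).Ω) (Y : S.VV e) (F : ∀ k, (S.F k).Ω → (Fin e → ℝ) → Fin M → ℝ)
    (fn : ∀ᶠ k in UF, ∀ ω ω', (S.F k).μ ω ≠ 0 → (S.F k).μ ω' ≠ 0 → (S.F k).Z ω ω' → La k ω ω' → F k ω = F k ω')
    (bd : ∃ B : ℕ → ℝ, S.Sub B ∧ ∀ᶠ k in UF, ∀ ω, (S.F k).μ ω ≠ 0 → ∀ y : Fin e → ℝ, (∀ i, |y i - Y.v k ω i| ≤ 1) →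
      ∀ j, |F k ω y j| ≤ B k)
    (G : ∀ k, (S.F k).Ω → Fin K → (Fin e → ℂ) → ℂ) (q : ∀ k, (S.F k).Ω → Fin K → Polynomial (MvPolynomial (Fin e) ℂ))
    (ach : ∀ᶠ k in UF, ∀ ω, (S.F k).μ ω ≠ 0 → ACh g (Y.v k ω) (G k ω) (q k ω))
    (crF : ∀ᶠ k in UF, ∀ ω, (S.F k).μ ω ≠ 0 → ∀ j, (fun y => F k ω y j) ∈ alA g (Y.v k ω) (G k ω) (q k ω) κ)
    (pt : ∃ B : ℕ → ℝ, S.Sub B ∧ ∀ᶠ k in UF, ∀ ω, (S.F k).μ ω ≠ 0 → ∀ i,
      |Q.v k ω i - F k ω (Y.v k ω) i| ≤ B k * S.dl 1 k)
    (full : Tendsto (fun k => h (fc (Setoid.ker (Y.cellv 1 k))) (fc (La k)) / (S.F k).n) UF (𝓝 e)) :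
    Leaf S Q (Pool.Agent.Helper84.MT.lin (κ * cA m K g)) where
  e := e
  he := by
    show e ≤ κ * cA m K g * (0 + 1)
    rw [zero_add, mul_one]
    exact (cA_ge K g he).trans (Nat.le_mul_of_pos_left _ hκ)
  La := La
  Y := Y
  F := F
  fn := fn
  bd := bd
  al := fun k ω D => alA g (Y.v k ω) (G k ω) (q k ω) (κ * D)
  alg := by
    filter_upwards [ach] with k hk ω hω
    exact alg_scale (alA_alg (hk ω hω)) hκ
  crF := by
    filter_upwards [crF] with k hk ω hω j
    rw [mul_one]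
    exact hk ω hω j
  seg := by
    intro D
    obtain ⟨B, hB0, hB⟩ := class_seg e K g (κ * D)
    refine ⟨fun _ => B, S.Sub_const hB0, ?_⟩
    filter_upwards [ach] with k hk ω hω f hf y z hy hz
    obtain ⟨h1, h2⟩ := hB _ _ _ (hk ω hω) f hf y z hy hz
    refine ⟨h1.mono ?_ hB0 le_rfl, h2⟩
    have h3 := c0_le K g he
    calc c0 e K g * (κ * D + 1) ≤ cA m K g * (κ * (D + 1)) :=
          Nat.mul_le_mul h3 (by rw [mul_add]; omega)
      _ = κ * cA m K g * (D + 1) := by ring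
  pt := pt
  full := full

/-- ALGEBRAIC LEAVES: the chart is real on the real cube -/
def _root_.Pool.Agent.Helper84.MT.Leaf.ofAlg {Q : S.VV M} (m g : ℕ) (e : ℕ) (he : e ≤ m)
    (La : ∀ k, Setoid (S.F k).Ω) (Y : S.VV e) (F : ∀ k, (S.F k).Ω → (Fin e → ℝ) → Fin M → ℝ)
    (fn : ∀ᶠ k in UF, ∀ ω ω', (S.F k).μ ω ≠ 0 → (S.F k).μ ω' ≠ 0 → (S.F k).Z ω ω' → La k ω ω' → F k ω = F k ω')
    (bd : ∃ B : ℕ → ℝ, S.Sub B ∧ ∀ᶠ k in UF, ∀ ω, (S.F k).μ ω ≠ 0 → ∀ y : Fin e → ℝ, (∀ i, |y i - Y.v k ω i| ≤ 1) →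
      ∀ j, |F k ω y j| ≤ B k)
    (G : ∀ k, (S.F k).Ω → Fin M → (Fin e → ℂ) → ℂ) (q : ∀ k, (S.F k).Ω → Fin M → Polynomial (MvPolynomial (Fin e) ℂ))
    (ach : ∀ᶠ k in UF, ∀ ω, (S.F k).μ ω ≠ 0 → ACh g (Y.v k ω) (G k ω) (q k ω))
    (real : ∀ᶠ k in UF, ∀ ω, (S.F k).μ ω ≠ 0 → ∀ y : Fin e → ℝ, (∀ i, |y i - Y.v k ω i| ≤ 1) → ∀ j,
      G k ω j (fun i => (y i : ℂ)) = (F k ω y j : ℂ))
    (pt : ∃ B : ℕ → ℝ, S.Sub B ∧ ∀ᶠ k in UF, ∀ ω, (S.F k).μ ω ≠ 0 → ∀ i,
      |Q.v k ω i - F k ω (Y.v k ω) i| ≤ B k * S.dl 1 k)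
    (full : Tendsto (fun k => h (fc (Setoid.ker (Y.cellv 1 k))) (fc (La k)) / (S.F k).n) UF (𝓝 e)) :
    Leaf S Q (Pool.Agent.Helper84.MT.lin (1 * cA m M g)) :=
  Leaf.ofAlgG m g M 1 le_rfl e he La Y F fn bd G q ach (by
    filter_upwards [real] with k hk ω hω j
    refine ⟨MvPolynomial.X (Sum.inr (Sum.inl j)), ?_, fun y hy => ?_⟩
    · rw [MvPolynomial.totalDegree_X]
      omega
    · rw [MvPolynomial.eval_X]
      exact (hk ω hω y hy j).symm) pt full

/-! ### real parts -/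

/-- the conjugate function -/
def cjF {e : ℕ} (f : (Fin e → ℂ) → ℂ) : (Fin e → ℂ) → ℂ := fun x => star (f (star x))

/-- the conjugate polynomial -/
def cjP {e : ℕ} (q : Polynomial (MvPolynomial (Fin e) ℂ)) : Polynomial (MvPolynomial (Fin e) ℂ) :=
  q.map (MvPolynomial.map (starRingEnd ℂ))

theorem ev_cjP {e : ℕ} (q : Polynomial (MvPolynomial (Fin e) ℂ)) (x : Fin e → ℂ) (w : ℂ) :
    ev (cjP q) (x, w) = star (ev q (star x, star w)) := by
  unfold ev cjP
  rw [Polynomial.map_map]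
  have h1 : (MvPolynomial.eval x).comp (MvPolynomial.map (starRingEnd ℂ)) =
      (starRingEnd ℂ).comp (MvPolynomial.eval (star x)) := by
    apply MvPolynomial.ringHom_ext
    · intro a
      simp
    · intro i
      simp
  rw [h1, ← Polynomial.map_map]
  have h2 : ∀ (p : Polynomial ℂ), (p.map (starRingEnd ℂ)).eval w = star (p.eval (star w)) := by
    intro p
    induction p using Polynomial.induction_on' with
    | add p q hp hq => rw [Polynomial.map_add, Polynomial.eval_add, hp, hq, Polynomial.eval_add, star_add]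
    | monomial n a =>
      rw [Polynomial.map_monomial, Polynomial.eval_monomial, Polynomial.eval_monomial, star_mul, star_pow, star_star,
        mul_comm]
      rfl
  rw [h2]

theorem star_ball {e : ℕ} {c : Fin e → ℝ} {x : Fin e → ℂ} {r : ℝ} (hx : x ∈ Metric.ball (fun i => (c i : ℂ)) r) :
    star x ∈ Metric.ball (fun i => (c i : ℂ)) r := by
  rw [Metric.mem_ball, dist_eq_norm] at hx ⊢
  have h1 : star x - (fun i => (c i : ℂ)) = star (x - fun i => (c i : ℂ)) := by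
    funext i
    simp
  rw [h1, norm_star]
  exact hx

/-- the conjugate chart -/
theorem ACh.conj {e K g : ℕ} {c : Fin e → ℝ} {G : Fin K → (Fin e → ℂ) → ℂ}
    {q : Fin K → Polynomial (MvPolynomial (Fin e) ℂ)} (h : ACh g c G q) :
    ACh g c (fun j => cjF (G j)) (fun j => cjP (q j)) where
  hol := by
    intro j x hx
    have h1 := (h.hol j).differentiableAt (Metric.isOpen_ball.mem_nhds (star_ball hx))
    have h2 := h1.star_star
    rw [star_star] at h2
    exact h2.differentiableWithinAt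
  deg := fun j => (Polynomial.natDegree_map_le).trans (h.deg j)
  degc := fun j i => by
    unfold cjP
    rw [Polynomial.coeff_map]
    refine le_trans ?_ (h.degc j i)
    unfold MvPolynomial.totalDegree
    exact Finset.sup_mono (MvPolynomial.support_map_subset _ _)
  root := by
    intro j x hx
    rw [ev_cjP]
    unfold cjF
    rw [star_star, h.root j _ (star_ball hx), star_zero]
  simple := by
    intro j x hx
    have h1 : Polynomial.derivative (cjP (q j)) = cjP (Polynomial.derivative (q j)) := by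
      unfold cjP
      rw [Polynomial.derivative_map]
    rw [h1, ev_cjP]
    unfold cjF
    rw [star_star]
    intro h2
    rw [star_eq_zero] at h2
    exact h.simple j _ (star_ball hx) h2

/-- union of two families of generators -/
theorem ACh.append {e K K' g : ℕ} {c : Fin e → ℝ} {G : Fin K → (Fin e → ℂ) → ℂ}
    {q : Fin K → Polynomial (MvPolynomial (Fin e) ℂ)} (h : ACh g c G q) {G' : Fin K' → (Fin e → ℂ) → ℂ}
    {q' : Fin K' → Polynomial (MvPolynomial (Fin e) ℂ)} (h' : ACh g c G' q') :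
    ACh g c (Fin.append G G') (Fin.append q q') where
  hol := by
    intro j
    refine Fin.addCases (fun j => ?_) (fun j => ?_) j
    · rw [Fin.append_left]
      exact h.hol j
    · rw [Fin.append_right]
      exact h'.hol j
  deg := by
    intro j
    refine Fin.addCases (fun j => ?_) (fun j => ?_) j
    · rw [Fin.append_left]
      exact h.deg j
    · rw [Fin.append_right]
      exact h'.deg j
  degc := by
    intro j
    refine Fin.addCases (fun j => ?_) (fun j => ?_) j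
    · rw [Fin.append_left]
      exact h.degc j
    · rw [Fin.append_right]
      exact h'.degc j
  root := by
    intro j
    refine Fin.addCases (fun j => ?_) (fun j => ?_) j
    · rw [Fin.append_left, Fin.append_left]
      exact h.root j
    · rw [Fin.append_right, Fin.append_right]
      exact h'.root j
  simple := by
    intro j
    refine Fin.addCases (fun j => ?_) (fun j => ?_) j
    · rw [Fin.append_left, Fin.append_left]
      exact h.simple j
    · rw [Fin.append_right, Fin.append_right]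
      exact h'.simple j

/-- the real part of a generator -/
theorem re_mem {e K g : ℕ} {c : Fin e → ℝ} (G : Fin K → (Fin e → ℂ) → ℂ)
    (q : Fin K → Polynomial (MvPolynomial (Fin e) ℂ)) (j : Fin K) :
    (fun y : Fin e → ℝ => (G j (fun i => (y i : ℂ))).re) ∈
      alA g c (Fin.append G fun j => cjF (G j)) (Fin.append q fun j => cjP (q j)) 1 := by
  refine ⟨MvPolynomial.C (1 / 2) * (MvPolynomial.X (Sum.inr (Sum.inl (Fin.castAdd K j))) +
    MvPolynomial.X (Sum.inr (Sum.inl (Fin.natAdd K j)))), ?_, fun y hy => ?_⟩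
  · refine (MvPolynomial.totalDegree_mul _ _).trans ?_
    rw [MvPolynomial.totalDegree_C, zero_add]
    refine (MvPolynomial.totalDegree_add _ _).trans (max_le ?_ ?_)
    · rw [MvPolynomial.totalDegree_X]
      omega
    · rw [MvPolynomial.totalDegree_X]
      omega
  · rw [map_mul, map_add, MvPolynomial.eval_X, MvPolynomial.eval_X, MvPolynomial.eval_C]
    have e1 : ptA (Fin.append G fun j => cjF (G j)) (Fin.append q fun j => cjP (q j)) (fun i => (y i : ℂ))
        (Sum.inr (Sum.inl (Fin.castAdd K j))) = G j (fun i => (y i : ℂ)) := by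
      show (Fin.append G fun j => cjF (G j)) (Fin.castAdd K j) _ = _
      rw [Fin.append_left]
    have e2 : ptA (Fin.append G fun j => cjF (G j)) (Fin.append q fun j => cjP (q j)) (fun i => (y i : ℂ))
        (Sum.inr (Sum.inl (Fin.natAdd K j))) = star (G j (fun i => (y i : ℂ))) := by
      show (Fin.append G fun j => cjF (G j)) (Fin.natAdd K j) _ = _
      rw [Fin.append_right]
      unfold cjF
      congr 2
      funext i
      simp
    rw [e1, e2]
    have h3 := Complex.add_conj (G j (fun i => (y i : ℂ)))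
    have h4 : star (G j (fun i => (y i : ℂ))) = (starRingEnd ℂ) (G j (fun i => (y i : ℂ))) := rfl
    rw [h4, h3]
    push_cast
    ring

/-- ALGEBRAIC LEAVES: the chart is the real part of simple roots over the complex ball of radius 4; `G` is a function of
the leaf -/
def _root_.Pool.Agent.Helper84.MT.Leaf.ofAlgRe {Q : S.VV M} (m g : ℕ) (e : ℕ) (he : e ≤ m)
    (La : ∀ k, Setoid (S.F k).Ω) (Y : S.VV e) (G : ∀ k, (S.F k).Ω → Fin M → (Fin e → ℂ) → ℂ)
    (fn : ∀ᶠ k in UF, ∀ ω ω', (S.F k).μ ω ≠ 0 → (S.F k).μ ω' ≠ 0 → (S.F k).Z ω ω' → La k ω ω' → G k ω = G k ω')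
    (bd : ∃ B : ℕ → ℝ, S.Sub B ∧ ∀ᶠ k in UF, ∀ ω, (S.F k).μ ω ≠ 0 → ∀ y : Fin e → ℝ, (∀ i, |y i - Y.v k ω i| ≤ 1) →
      ∀ j, |(G k ω j (fun i => (y i : ℂ))).re| ≤ B k)
    (q : ∀ k, (S.F k).Ω → Fin M → Polynomial (MvPolynomial (Fin e) ℂ))
    (ach : ∀ᶠ k in UF, ∀ ω, (S.F k).μ ω ≠ 0 → ACh g (Y.v k ω) (G k ω) (q k ω))
    (pt : ∃ B : ℕ → ℝ, S.Sub B ∧ ∀ᶠ k in UF, ∀ ω, (S.F k).μ ω ≠ 0 → ∀ i,
      |Q.v k ω i - (G k ω i (fun i => (Y.v k ω i : ℂ))).re| ≤ B k * S.dl 1 k)
    (full : Tendsto (fun k => h (fc (Setoid.ker (Y.cellv 1 k))) (fc (La k)) / (S.F k).n) UF (𝓝 e)) :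
    Leaf S Q (Pool.Agent.Helper84.MT.lin (1 * cA m (M + M) g)) :=
  Leaf.ofAlgG m g (M + M) 1 le_rfl e he La Y (fun k ω y j => (G k ω j (fun i => (y i : ℂ))).re)
    (by
      filter_upwards [fn] with k hk ω ω' h1 h2 h3 h4
      rw [hk ω ω' h1 h2 h3 h4])
    bd (fun k ω => Fin.append (G k ω) fun j => cjF (G k ω j)) (fun k ω => Fin.append (q k ω) fun j => cjP (q k ω j))
    (by
      filter_upwards [ach] with k hk ω hω
      exact (hk ω hω).append (hk ω hω).conj)
    (Eventually.of_forall fun k ω _ j => re_mem (G k ω) (q k ω) j) pt full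

end

end Pool.Agent.Helper85.OA
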