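import Pool.Agent.Helper85.OA.Emb
import Pool.Agent.Helper84.MT.Seg

/-! OA (algebraic charts of leaves), step 2: the class of functions which are polynomials in the coordinates, in the
chart and in the inverse vertical derivatives is a filtered differential algebra. -/

set_option autoImplicit false

namespace Pool.Agent.Helper85.OA

open MvPolynomial Pool.Agent.Helper76.RL Metric Function Pool.Agent.Helper84.MT

variable {e M : ℕ}

/-- chain rule along a coordinate line -/
theorem chain2 {τ : Type*} [Fintype τ] [DecidableEq τ] (ι : Fin e → τ) (hι : Injective ι) (s : τ) (hs : ∀ i, ι i ≠ s)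
    (q : Polynomial (MvPolynomial (Fin e) ℂ)) (Ψ : τ → ℂ) (i : Fin e) (φ : ℂ → ℂ) (d : ℂ)
    (hφ : HasDerivAt φ d (Ψ (ι i))) (hφ0 : φ (Ψ (ι i)) = Ψ s) :
    HasDerivAt (fun t => ev q (update (fun i => Ψ (ι i)) i t, φ t))
      (eval Ψ (pderiv (ι i) (emb ι s q)) + eval Ψ (pderiv s (emb ι s q)) * d) (Ψ (ι i)) := by
  set Ψt : ℂ → τ → ℂ := fun t => update (update Ψ (ι i) t) s (φ t) with hΨt
  have h0 : Ψt (Ψ (ι i)) = Ψ := by
    rw [hΨt]
    simp only
    rw [update_eq_self, hφ0, update_eq_self]
  have h1 : ∀ s', HasDerivAt (fun t => Ψt t s') (if s' = s then d else if s' = ι i then 1 else 0) (Ψ (ι i)) := by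
    intro s'
    by_cases h : s' = s
    · subst h
      simp only [hΨt, update_self, if_pos]
      exact hφ
    · by_cases h' : s' = ι i
      · subst h'
        simp only [hΨt, update_of_ne h, update_self, if_neg h, if_pos]
        exact hasDerivAt_id _
      · simp only [hΨt, update_of_ne h, update_of_ne h', if_neg h, if_neg h']
        exact hasDerivAt_const _ _
  have h2 := chain (emb ι s q) Ψt _ _ h1
  rw [h0] at h2
  have h3 : (fun t => eval (Ψt t) (emb ι s q)) = fun t => ev q (update (fun i => Ψ (ι i)) i t, φ t) := by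
    funext t
    rw [eval_emb]
    have e1 : (fun i' => Ψt t (ι i')) = update (fun i => Ψ (ι i)) i t := by
      funext i'
      simp only [hΨt, update_of_ne (hs i')]
      by_cases h : i' = i
      · subst h
        rw [update_self, update_self]
      · rw [update_of_ne h, update_of_ne (fun h' => h (hι h'))]
    have e2 : Ψt t s = φ t := by simp only [hΨt, update_self]
    rw [e1, e2]
  rw [h3] at h2
  refine h2.congr_deriv ?_
  have h4 : ∀ s', eval Ψ (pderiv s' (emb ι s q)) * (if s' = s then d else if s' = ι i then 1 else 0) =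
      (if s' = s then eval Ψ (pderiv s (emb ι s q)) * d else 0) +
      (if s' = ι i then eval Ψ (pderiv (ι i) (emb ι s q)) else 0) := by
    intro s'
    by_cases h : s' = s
    · subst h
      rw [if_pos rfl, if_pos rfl, if_neg (fun h => hs i h.symm), add_zero]
    · by_cases h' : s' = ι i
      · subst h'
        rw [if_neg h, if_pos rfl, if_neg h, if_pos rfl, mul_one, zero_add]
      · rw [if_neg h, if_neg h', if_neg h, if_neg h', mul_zero, add_zero]
  simp only [h4]
  rw [Finset.sum_add_distrib, Finset.sum_ite_eq' Finset.univ s, if_pos (Finset.mem_univ _),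
    Finset.sum_ite_eq' Finset.univ (ι i), if_pos (Finset.mem_univ _), add_comm]

/-- ALGEBRAIC CHART of complexity `g` on the cube of centre `c`: holomorphic on the complex ball of radius 4, simple
roots of polynomials of degree `≤ g` -/
structure ACh (g : ℕ) (c : Fin e → ℝ) (G : Fin M → (Fin e → ℂ) → ℂ)
    (q : Fin M → Polynomial (MvPolynomial (Fin e) ℂ)) : Prop where
  hol : ∀ j, DifferentiableOn ℂ (G j) (ball (fun i => (c i : ℂ)) 4)
  deg : ∀ j, (q j).natDegree ≤ g
  degc : ∀ j i, ((q j).coeff i).totalDegree ≤ g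
  root : ∀ j, ∀ x ∈ ball (fun i => (c i : ℂ)) 4, ev (q j) (x, G j x) = 0
  simple : ∀ j, ∀ x ∈ ball (fun i => (c i : ℂ)) 4, ev (Polynomial.derivative (q j)) (x, G j x) ≠ 0

/-- the variables: coordinates, chart, inverse vertical derivatives -/
abbrev Vr (e M : ℕ) : Type := Fin e ⊕ (Fin M ⊕ Fin M)

/-- the point -/
noncomputable def ptA (G : Fin M → (Fin e → ℂ) → ℂ) (q : Fin M → Polynomial (MvPolynomial (Fin e) ℂ)) (x : Fin e → ℂ) :
    Vr e M → ℂ :=
  Sum.elim x (Sum.elim (fun j => G j x) (fun j => (ev (Polynomial.derivative (q j)) (x, G j x))⁻¹))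

/-- derivatives of the generators -/
noncomputable def Rd (q : Fin M → Polynomial (MvPolynomial (Fin e) ℂ)) (i : Fin e) : Vr e M → MvPolynomial (Vr e M) ℂ
  | Sum.inl i' => if i' = i then 1 else 0
  | Sum.inr (Sum.inl j) => -(pderiv (Sum.inl i) (emb Sum.inl (Sum.inr (Sum.inl j)) (q j)) * X (Sum.inr (Sum.inr j)))
  | Sum.inr (Sum.inr j) => -(X (Sum.inr (Sum.inr j)) ^ 2 *
      (pderiv (Sum.inl i) (emb Sum.inl (Sum.inr (Sum.inl j)) (Polynomial.derivative (q j))) +
        pderiv (Sum.inr (Sum.inl j)) (emb Sum.inl (Sum.inr (Sum.inl j)) (Polynomial.derivative (q j))) *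
          -(pderiv (Sum.inl i) (emb Sum.inl (Sum.inr (Sum.inl j)) (q j)) * X (Sum.inr (Sum.inr j)))))

theorem deg_neg_mul_X {τ : Type*} (P : MvPolynomial τ ℂ) (s : τ) {n : ℕ} (h : P.totalDegree ≤ n) :
    (-(P * X s)).totalDegree ≤ n + 1 := by
  rw [totalDegree_neg]
  refine (totalDegree_mul _ _).trans ?_
  rw [totalDegree_X]
  omega

theorem Rd_deg {g : ℕ} (q : Fin M → Polynomial (MvPolynomial (Fin e) ℂ)) (hd : ∀ j, (q j).natDegree ≤ g)
    (hc : ∀ j i, ((q j).coeff i).totalDegree ≤ g) (i : Fin e) (s : Vr e M) : (Rd q i s).totalDegree ≤ 4 * g + 3 := by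
  have h1 : ∀ j s', (pderiv s' (emb Sum.inl (Sum.inr (Sum.inl j)) (q j)) : MvPolynomial (Vr e M) ℂ).totalDegree ≤ 2 * g :=
    fun j s' => (pderiv_deg s' _).trans (emb_deg _ _ _ (hd j) (hc j))
  have h2 : ∀ j s', (pderiv s' (emb Sum.inl (Sum.inr (Sum.inl j)) (Polynomial.derivative (q j))) :
      MvPolynomial (Vr e M) ℂ).totalDegree ≤ 2 * g :=
    fun j s' => (pderiv_deg s' _).trans (emb_deg _ _ _
      ((Polynomial.natDegree_derivative_le _).trans ((Nat.sub_le _ _).trans (hd j)))
      (totalDegree_coeff_derivative_le g (hc j)))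
  rcases s with i' | j | j
  · unfold Rd
    dsimp only
    split_ifs
    · rw [totalDegree_one]
      exact Nat.zero_le _
    · rw [totalDegree_zero]
      exact Nat.zero_le _
  · unfold Rd
    refine (deg_neg_mul_X _ _ (h1 j _)).trans ?_
    omega
  · unfold Rd
    rw [totalDegree_neg]
    refine (totalDegree_mul _ _).trans ?_
    rw [totalDegree_X_pow]
    have h3 := deg_neg_mul_X _ (Sum.inr (Sum.inr j) : Vr e M) (h1 j (Sum.inl i))
    have h4 : (pderiv (Sum.inl i) (emb Sum.inl (Sum.inr (Sum.inl j)) (Polynomial.derivative (q j))) +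
        pderiv (Sum.inr (Sum.inl j)) (emb Sum.inl (Sum.inr (Sum.inl j)) (Polynomial.derivative (q j))) *
          -(pderiv (Sum.inl i) (emb Sum.inl (Sum.inr (Sum.inl j)) (q j)) * X (Sum.inr (Sum.inr j))) :
        MvPolynomial (Vr e M) ℂ).totalDegree ≤ 4 * g + 1 := by
      refine (totalDegree_add _ _).trans (max_le ((h2 j _).trans (by omega)) ?_)
      refine (totalDegree_mul _ _).trans ?_
      have h5 := h2 j (Sum.inr (Sum.inl j))
      omega
    omega

theorem upd_mem {c x : Fin e → ℂ} {r : ℝ} (hx : x ∈ ball c r) (i : Fin e) :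
    ∀ᶠ t in nhds (x i), update x i t ∈ ball c r := by
  have h1 : Continuous (fun t : ℂ => update x i t) := continuous_const.update i continuous_id
  have h2 : update x i (x i) ∈ ball c r := by rw [update_eq_self]; exact hx
  exact h1.continuousAt.eventually_mem (isOpen_ball.mem_nhds h2)

/-- derivatives of the generators -/
theorem pt_deriv {g : ℕ} {c : Fin e → ℝ} {G : Fin M → (Fin e → ℂ) → ℂ}
    {q : Fin M → Polynomial (MvPolynomial (Fin e) ℂ)} (h : ACh g c G q) {x : Fin e → ℂ}
    (hx : x ∈ ball (fun i => (c i : ℂ)) 4) (i : Fin e) (s : Vr e M) :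
    HasDerivAt (fun t => ptA G q (update x i t) s) (eval (ptA G q x) (Rd q i s)) (x i) := by
  classical
  have hG : ∀ j, HasDerivAt (fun t => G j (update x i t)) (eval (ptA G q x) (Rd q i (Sum.inr (Sum.inl j)))) (x i) := by
    intro j
    have h1 : HasFDerivAt (G j) (fderiv ℂ (G j) x) (update x i (x i)) := by
      rw [update_eq_self]
      exact ((h.hol j).differentiableAt (isOpen_ball.mem_nhds hx)).hasFDerivAt
    have h2 := h1.comp_hasDerivAt (x i) (hasDerivAt_update x i (x i))
    set d := fderiv ℂ (G j) x (Pi.single i 1) with hd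
    have h3 := chain2 (τ := Vr e M) Sum.inl Sum.inl_injective (Sum.inr (Sum.inl j)) (fun i => by simp) (q j) (ptA G q x) i
      (fun t => G j (update x i t)) d h2 (by
        show G j (update x i (x i)) = G j x
        rw [update_eq_self])
    have h4 : (fun t => ev (q j) (update (fun i' => ptA G q x (Sum.inl i')) i t, G j (update x i t))) =ᶠ[nhds (x i)]
        fun _ => 0 := by
      filter_upwards [upd_mem hx i] with t ht
      exact h.root j _ ht
    have h5 : HasDerivAt (fun t => ev (q j) (update (fun i' => ptA G q x (Sum.inl i')) i t, G j (update x i t))) 0 (x i) :=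
      (hasDerivAt_const _ _).congr_of_eventuallyEq h4
    have h6 := h3.unique h5
    rw [pderiv_emb Sum.inl (Sum.inr (Sum.inl j)) (fun i => by simp)] at h6
    have h7 : eval (ptA G q x) (emb Sum.inl (Sum.inr (Sum.inl j)) (Polynomial.derivative (q j))) =
        ev (Polynomial.derivative (q j)) (x, G j x) := by
      rw [eval_emb]
      rfl
    rw [h7] at h6
    have h8 := h.simple j x hx
    have h9 : ptA G q x (Sum.inr (Sum.inr j)) = (ev (Polynomial.derivative (q j)) (x, G j x))⁻¹ := rfl
    refine h2.congr_deriv ?_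
    unfold Rd
    rw [map_neg, map_mul, eval_X, h9]
    show d = _
    field_simp
    linear_combination h6
  rcases s with i' | j | j
  · unfold Rd
    dsimp only
    have h1 := (hasDerivAt_pi.mp (hasDerivAt_update x i (x i))) i'
    refine h1.congr_deriv ?_
    by_cases hi : i' = i
    · subst hi
      rw [if_pos rfl, map_one, Pi.single_eq_same]
    · rw [if_neg hi, map_zero, Pi.single_eq_of_ne hi]
  · exact hG j
  · have h1 := chain2 (τ := Vr e M) Sum.inl Sum.inl_injective (Sum.inr (Sum.inl j)) (fun i => by simp)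
      (Polynomial.derivative (q j)) (ptA G q x) i (fun t => G j (update x i t)) _ (hG j) (by
        show G j (update x i (x i)) = G j x
        rw [update_eq_self])
    have h2 := h1.inv (by
      show ev (Polynomial.derivative (q j)) (update x i (x i), G j (update x i (x i))) ≠ 0
      rw [update_eq_self]
      exact h.simple j x hx)
    refine h2.congr_deriv ?_
    have h9 : ptA G q x (Sum.inr (Sum.inr j)) = (ev (Polynomial.derivative (q j)) (x, G j x))⁻¹ := rfl
    have h10 : (ev (Polynomial.derivative (q j)) (update (fun i => ptA G q x (Sum.inl i)) i (ptA G q x (Sum.inl i)),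
        G j (update x i (ptA G q x (Sum.inl i))))) = ev (Polynomial.derivative (q j)) (x, G j x) := by
      show ev (Polynomial.derivative (q j)) (update x i (x i), G j (update x i (x i))) = _
      rw [update_eq_self]
    rw [h10]
    have h8 := h.simple j x hx
    unfold Rd
    simp only [map_neg, map_mul, map_add, map_pow, eval_X, h9]
    field_simp

/-- THE CLASS: polynomials in the coordinates, in the chart and in the inverse vertical derivatives -/
def alA (g : ℕ) (c : Fin e → ℝ) (G : Fin M → (Fin e → ℂ) → ℂ) (q : Fin M → Polynomial (MvPolynomial (Fin e) ℂ)) :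
    ℕ → Set ((Fin e → ℝ) → ℝ) := fun D => {f | ∃ P : MvPolynomial (Vr e M) ℂ, P.totalDegree ≤ (4 * g + 3) * D ∧
      ∀ y : Fin e → ℝ, (∀ i, |y i - c i| ≤ 1) → (f y : ℂ) = eval (ptA G q (fun i => (y i : ℂ))) P}

theorem cube_ball {c y : Fin e → ℝ} (hy : ∀ i, |y i - c i| ≤ 1) : (fun i => (y i : ℂ)) ∈ ball (fun i => (c i : ℂ)) 4 := by
  rw [mem_ball, dist_eq_norm]
  refine lt_of_le_of_lt ((pi_norm_le_iff_of_nonneg (zero_le_one)).mpr fun i => ?_) (by norm_num)
  rw [Pi.sub_apply, ← Complex.ofReal_sub, Complex.norm_real]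
  exact hy i

theorem alA_alg {g : ℕ} {c : Fin e → ℝ} {G : Fin M → (Fin e → ℂ) → ℂ}
    {q : Fin M → Polynomial (MvPolynomial (Fin e) ℂ)} (h : ACh g c G q) : Alg e c (alA g c G q) where
  const := fun a => ⟨C (a : ℂ), by rw [totalDegree_C]; exact Nat.zero_le _, fun y _ => by rw [eval_C]⟩
  add := by
    rintro D f f' ⟨P, hP, h1⟩ ⟨P', hP', h1'⟩
    refine ⟨P + P', (totalDegree_add _ _).trans (max_le hP hP'), fun y hy => ?_⟩
    rw [map_add, ← h1 y hy, ← h1' y hy, Complex.ofReal_add]
  mul := by
    rintro D D' f f' ⟨P, hP, h1⟩ ⟨P', hP', h1'⟩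
    refine ⟨P * P', (totalDegree_mul _ _).trans ?_, fun y hy => ?_⟩
    · rw [mul_add]
      exact add_le_add hP hP'
    · rw [map_mul, ← h1 y hy, ← h1' y hy, Complex.ofReal_mul]
  mono := by
    rintro D D' hD f ⟨P, hP, h1⟩
    exact ⟨P, hP.trans (Nat.mul_le_mul_left _ hD), h1⟩
  crd := fun i => ⟨X (Sum.inl i), by rw [totalDegree_X]; omega, fun y _ => by rw [eval_X]; rfl⟩
  der := by
    classical
    rintro D f ⟨P, hP, h1⟩ i
    set T : MvPolynomial (Vr e M) ℂ := ∑ s, pderiv s P * Rd q i s with hT
    have hTd : T.totalDegree ≤ (4 * g + 3) * (D + 1) := by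
      refine totalDegree_finsetSum_le fun s _ => ?_
      refine (totalDegree_mul _ _).trans ?_
      have := (pderiv_deg s P).trans hP
      have := Rd_deg q h.deg h.degc i s
      rw [mul_add, mul_one]
      omega
    -- the complex derivative
    have hder : ∀ y : Fin e → ℝ, (∀ j, |y j - c j| ≤ 1) → HasDerivAt
        (fun t : ℂ => eval (ptA G q (update (fun i => (y i : ℂ)) i t)) P) (eval (ptA G q (fun i => (y i : ℂ))) T)
        ((y i : ℝ) : ℂ) := by
      intro y hy
      have h2 := chain P (fun t => ptA G q (update (fun i => (y i : ℂ)) i t)) _ _ (pt_deriv h (cube_ball hy) i)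
      refine h2.congr_deriv ?_
      rw [update_eq_self, hT, map_sum]
      exact Finset.sum_congr rfl fun s _ => by rw [map_mul]
    have hupd : ∀ (y : Fin e → ℝ) (t : ℝ), update (fun i => (y i : ℂ)) i (t : ℂ) = fun i' => ((update y i t i' : ℝ) : ℂ) := by
      intro y t
      funext i'
      by_cases hi : i' = i
      · subst hi
        rw [update_self, update_self]
      · rw [update_of_ne hi, update_of_ne hi]
    have hcube : ∀ (y : Fin e → ℝ) (t : ℝ), (∀ j, |y j - c j| ≤ 1) → |t - c i| ≤ 1 → ∀ j, |update y i t j - c j| ≤ 1 := by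
      intro y t hy ht j
      by_cases hj : j = i
      · subst hj
        rw [update_self]
        exact ht
      · rw [update_of_ne hj]
        exact hy j
    have hval : ∀ (y : Fin e → ℝ) (t : ℝ), (∀ j, |y j - c j| ≤ 1) → |t - c i| ≤ 1 →
        eval (ptA G q (update (fun i => (y i : ℂ)) i (t : ℂ))) P = (f (update y i t) : ℂ) := by
      intro y t hy ht
      rw [hupd, ← h1 _ (hcube y t hy ht)]
    refine ⟨fun y => (eval (ptA G q (fun i => (y i : ℂ))) T).re, ⟨T, hTd, fun y hy => ?_⟩, fun y hy => ?_⟩
    · -- the value is real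
      have h3 : HasDerivAt (fun t : ℝ => (-Complex.I * eval (ptA G q (update (fun i => (y i : ℂ)) i (t : ℂ))) P).re)
          (-Complex.I * eval (ptA G q (fun i => (y i : ℂ))) T).re (y i) :=
        HasDerivAt.real_of_complex (e := fun t : ℂ => -Complex.I * eval (ptA G q (update (fun i => (y i : ℂ)) i t)) P)
          ((hder y hy).const_mul _)
      have h4 : HasDerivWithinAt (fun _ : ℝ => (0 : ℝ)) (-Complex.I * eval (ptA G q (fun i => (y i : ℂ))) T).re
          (Set.Icc (c i - 1) (c i + 1)) (y i) := by
        refine h3.hasDerivWithinAt.congr (fun t ht => ?_) ?_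
        · have ht' : |t - c i| ≤ 1 := by
            rw [abs_le]
            constructor <;> linarith [ht.1, ht.2]
          rw [hval y t hy ht']
          simp
        · rw [hval y (y i) hy (hy i)]
          simp
      have hmem : y i ∈ Set.Icc (c i - 1) (c i + 1) := by
        have := abs_le.mp (hy i)
        constructor <;> linarith [this.1, this.2]
      have h5 : (-Complex.I * eval (ptA G q (fun i => (y i : ℂ))) T).re = 0 :=
        ((uniqueDiffOn_Icc (by linarith : c i - 1 < c i + 1)) (y i) hmem).eq_deriv _ h4 (hasDerivWithinAt_const _ _ _)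
      apply Complex.ext
      · rw [Complex.ofReal_re]
      · rw [Complex.ofReal_im]
        simpa using h5.symm
    · have hy' : ∀ j, |y j - c j| ≤ 1 := fun j => (hy j).le
      have h3 : HasDerivAt (fun t : ℝ => (eval (ptA G q (update (fun i => (y i : ℂ)) i (t : ℂ))) P).re)
          (eval (ptA G q (fun i => (y i : ℂ))) T).re (y i) := HasDerivAt.real_of_complex (hder y hy')
      refine h3.congr_of_eventuallyEq ?_
      have h4 : ∀ᶠ t in nhds (y i), |t - c i| < 1 := by
        have : Continuous fun t : ℝ => |t - c i| := by fun_prop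
        exact this.continuousAt.eventually_lt continuousAt_const (hy i)
      filter_upwards [h4] with t ht
      rw [hval y t hy' ht.le, Complex.ofReal_re]

end Pool.Agent.Helper85.OA
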