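import Pool.Agent.Helper76.RL.Poly

/-! OA (algebraic charts of leaves), step 1: polynomials in `(y, w)` as polynomials in several variables; the chain rule. -/

set_option autoImplicit false

namespace Pool.Agent.Helper85.OA

open MvPolynomial Pool.Agent.Helper76.RL

variable {e : ℕ} {τ : Type*}

/-- a polynomial in `(y, w)`, as a polynomial in the variables `τ` -/
noncomputable def emb (ι : Fin e → τ) (s : τ) (q : Polynomial (MvPolynomial (Fin e) ℂ)) : MvPolynomial τ ℂ :=
  q.eval₂ (rename ι).toRingHom (X s)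

theorem emb_add (ι : Fin e → τ) (s : τ) (p q : Polynomial (MvPolynomial (Fin e) ℂ)) :
    emb ι s (p + q) = emb ι s p + emb ι s q := by
  unfold emb
  rw [Polynomial.eval₂_add]

theorem emb_monomial (ι : Fin e → τ) (s : τ) (n : ℕ) (a : MvPolynomial (Fin e) ℂ) :
    emb ι s (Polynomial.monomial n a) = rename ι a * X s ^ n := by
  unfold emb
  rw [Polynomial.eval₂_monomial]
  rfl

theorem eval_emb (ι : Fin e → τ) (s : τ) (q : Polynomial (MvPolynomial (Fin e) ℂ)) (Ψ : τ → ℂ) :
    eval Ψ (emb ι s q) = ev q (fun i => Ψ (ι i), Ψ s) := by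
  induction q using Polynomial.induction_on' with
  | add p q hp hq => rw [emb_add, map_add, hp, hq, ev_add]
  | monomial n a =>
    rw [emb_monomial, map_mul, map_pow, eval_X, eval_rename]
    unfold ev
    rw [Polynomial.map_monomial, Polynomial.eval_monomial]
    rfl

theorem emb_sum (ι : Fin e → τ) (s : τ) (q : Polynomial (MvPolynomial (Fin e) ℂ)) :
    emb ι s q = ∑ i ∈ Finset.range (q.natDegree + 1), rename ι (q.coeff i) * X s ^ i := by
  unfold emb
  rw [Polynomial.eval₂_eq_sum_range]
  rfl

theorem emb_deg (ι : Fin e → τ) (s : τ) (q : Polynomial (MvPolynomial (Fin e) ℂ)) {g : ℕ} (hd : q.natDegree ≤ g)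
    (hc : ∀ i, (q.coeff i).totalDegree ≤ g) : (emb ι s q).totalDegree ≤ 2 * g := by
  rw [emb_sum]
  refine totalDegree_finsetSum_le fun i hi => ?_
  refine (totalDegree_mul _ _).trans ?_
  have h1 := (totalDegree_rename_le ι (q.coeff i)).trans (hc i)
  have h2 : (X s ^ i : MvPolynomial τ ℂ).totalDegree ≤ i := by
    rw [totalDegree_X_pow]
  have h3 := Finset.mem_range.mp hi
  omega

theorem pderiv_emb (ι : Fin e → τ) (s : τ) (hs : ∀ i, ι i ≠ s) (q : Polynomial (MvPolynomial (Fin e) ℂ)) :
    pderiv s (emb ι s q) = emb ι s (Polynomial.derivative q) := by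
  classical
  induction q using Polynomial.induction_on' with
  | add p q hp hq => rw [emb_add, map_add, hp, hq, Polynomial.derivative_add, emb_add]
  | monomial n a =>
    rw [emb_monomial, Polynomial.derivative_monomial, emb_monomial, pderiv_mul, pderiv_pow, pderiv_X_self]
    have h1 : pderiv s (rename ι a) = 0 := by
      apply pderiv_eq_zero_of_notMem_vars
      intro h
      have h2 := vars_rename ι a h
      rw [Finset.mem_image] at h2
      obtain ⟨i, -, hi⟩ := h2
      exact hs i hi
    rw [h1, zero_mul, zero_add, mul_one, map_mul, map_natCast]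
    ring

theorem pderiv_deg (s : τ) (P : MvPolynomial τ ℂ) : (pderiv s P).totalDegree ≤ P.totalDegree := by
  classical
  rw [P.as_sum, map_sum]
  refine (totalDegree_finsetSum _ _).trans ?_
  apply Finset.sup_le
  intro a ha
  rw [← P.as_sum, pderiv_monomial]
  refine (totalDegree_monomial_le _ _).trans ?_
  refine le_trans ?_ (le_totalDegree ha)
  exact Finsupp.sum_le_sum_index (tsub_le_self) (fun _ _ _ _ h => h) (fun _ _ => rfl)

/-- CHAIN RULE -/
theorem chain [Fintype τ] (P : MvPolynomial τ ℂ) (Ψ : ℂ → τ → ℂ) (Ψ' : τ → ℂ) (t : ℂ)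
    (h : ∀ s, HasDerivAt (fun t => Ψ t s) (Ψ' s) t) :
    HasDerivAt (fun t => eval (Ψ t) P) (∑ s, eval (Ψ t) (pderiv s P) * Ψ' s) t := by
  classical
  induction P using MvPolynomial.induction_on with
  | C a =>
    simp only [eval_C, pderiv_C, map_zero, zero_mul, Finset.sum_const_zero]
    exact hasDerivAt_const _ _
  | add p q hp hq =>
    simp only [map_add, add_mul, Finset.sum_add_distrib]
    exact hp.add hq
  | mul_X p j hp =>
    have h2 := hp.mul (h j)
    simp only [map_mul, eval_X]
    refine h2.congr_deriv ?_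
    rw [Finset.sum_mul]
    have h3 : ∀ s, eval (Ψ t) (pderiv s (p * X j)) * Ψ' s =
        eval (Ψ t) (pderiv s p) * Ψ' s * Ψ t j + (if s = j then eval (Ψ t) p * Ψ' j else 0) := by
      intro s
      rw [pderiv_mul, map_add, map_mul, map_mul, eval_X, pderiv_X]
      by_cases hs : s = j
      · subst hs
        rw [Pi.single_eq_same, map_one, if_pos rfl]
        ring
      · rw [Pi.single_eq_of_ne (fun h => hs h.symm), map_zero, if_neg hs]
        ring
    simp only [h3]
    rw [Finset.sum_add_distrib, Finset.sum_ite_eq' Finset.univ j, if_pos (Finset.mem_univ j)]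

end Pool.Agent.Helper85.OA
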