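import Pool.Agent.Helper85.AR.Cmp

/-! OA (algebraic charts of leaves), step 3: the Remez inequality of AR with an explicit exponent, linear in the degree. -/

set_option autoImplicit false

namespace Pool.Agent.Helper85.OA

open Complex Metric Real Set Filter Function Topology Pool.Agent.Helper85.AR

/-- REMEZ INEQUALITY for algebraic functions with an explicit number of points -/
theorem sepRN (A : ℕ) (η : ℝ) (hη : 0 < η) (n : ℕ) (hn1 : 1 ≤ n) (hnK : (2 / 7 : ℝ) ^ (n + 1) * Kd A ≤ 1 / 4) :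
    ∃ C : ℝ, 1 ≤ C ∧ ∀ f : ℂ → ℂ, AlgF A η f → ∀ x : Fin ((⌊1 / (η / 32)⌋₊ + 1) * n + 1) → ℝ, (∀ i, x i ∈ Icc (0 : ℝ) 1) → ∀ δ : ℝ, 0 < δ → (∀ i j, i ≠ j → δ ≤ |x i - x j|) →
      ∀ ε : ℝ, (∀ i, ‖f (x i)‖ ≤ ε) → ∀ t ∈ Icc (0 : ℝ) 1, ∀ z ∈ closedBall (t : ℂ) (η / 32),
        ‖f z‖ ≤ C * (1 / δ) ^ ((⌊1 / (η / 32)⌋₊ + 1) * n) * ε := by
  classical
  set ρ := η / 32 with hρdef
  have hρ : 0 < ρ := by positivity
  have h32 : 32 * ρ = η := by rw [hρdef]; ring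
  set K₀ := ⌊1 / ρ⌋₊ + 1 with hK₀
  set k := ⌈1 / ρ⌉₊ with hk
  have hN1 : 1 ≤ K₀ * n := Nat.one_le_iff_ne_zero.mpr (Nat.mul_ne_zero (by omega) (by omega))
  refine ⟨1 + 4 * (n + 1) * (9 * ρ) ^ n * Kd A ^ k, ?_, ?_⟩
  · have hK := Kd_one A
    have : 0 ≤ 4 * ((n : ℝ) + 1) * (9 * ρ) ^ n * Kd A ^ k := by positivity
    linarith
  intro f hf x hx δ hδ hsep ε hε t ht z hz
  obtain ⟨U, hU, hRU, hfd, H, hH0, hA, hH⟩ := hf
  have hε0 : 0 ≤ ε := (norm_nonneg _).trans (hε 0)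
  -- δ ≤ 1
  have hδ1 : δ ≤ 1 := by
    have h01 : (0 : Fin (K₀ * n + 1)) ≠ Fin.last (K₀ * n) := by
      intro h
      have := congrArg Fin.val h
      simp only [Fin.val_zero, Fin.val_last] at this
      omega
    refine (hsep _ _ h01).trans ?_
    rw [abs_le]
    constructor
    · linarith [(hx 0).1, (hx (Fin.last (K₀ * n))).2]
    · linarith [(hx 0).2, (hx (Fin.last (K₀ * n))).1]
  -- pigeonhole
  have hcell : ∀ i, ⌊x i / ρ⌋₊ ∈ Finset.range K₀ := by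
    intro i
    rw [Finset.mem_range, hK₀, Nat.lt_succ_iff]
    exact Nat.floor_mono (div_le_div_of_nonneg_right (hx i).2 hρ.le)
  obtain ⟨q, _, hq⟩ := Finset.exists_lt_card_fiber_of_mul_lt_card_of_maps_to (s := (Finset.univ : Finset (Fin (K₀ * n + 1))))
    (t := Finset.range K₀) (f := fun i => ⌊x i / ρ⌋₊) (n := n) (fun i _ => hcell i) (by
      rw [Finset.card_range, Finset.card_univ, Fintype.card_fin]
      omega)
  obtain ⟨s, hsq, hs⟩ := Finset.exists_subset_card_eq (Nat.succ_le_of_lt hq)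
  have hsc : ∀ i ∈ s, ⌊x i / ρ⌋₊ = q := fun i hi => (Finset.mem_filter.mp (hsq hi)).2
  -- the centre
  set c : ℝ := q * ρ with hc
  have hsne : s.Nonempty := by
    rw [← Finset.card_pos, hs]
    omega
  have hxc : ∀ i ∈ s, c ≤ x i ∧ x i ≤ c + ρ := by
    intro i hi
    have h1 := Nat.floor_le (div_nonneg (hx i).1 hρ.le)
    have h2 := Nat.lt_floor_add_one (x i / ρ)
    rw [hsc i hi] at h1 h2
    rw [le_div_iff₀ hρ] at h1
    rw [div_lt_iff₀ hρ] at h2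
    constructor
    · exact h1
    · rw [hc]
      linarith
  have hcI : c ∈ Icc (0 : ℝ) 1 := by
    obtain ⟨i, hi⟩ := hsne
    refine ⟨by positivity, (hxc i hi).1.trans (hx i).2⟩
  have hnorm : ∀ a b : ℝ, ‖(a : ℂ) - (b : ℂ)‖ = |a - b| := by
    intro a b
    rw [← Complex.ofReal_sub, Complex.norm_real, Real.norm_eq_abs]
  have hinj : Function.Injective (fun i : Fin (K₀ * n + 1) => ((x i : ℝ) : ℂ)) := by
    intro i j hij
    by_contra h
    have h1 := hsep i j h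
    have h2' : ((x i : ℝ) : ℂ) = ((x j : ℝ) : ℂ) := hij
    have h2 : x i = x j := by exact_mod_cast h2'
    rw [h2, sub_self, abs_zero] at h1
    linarith
  have hRU' : ∀ t ∈ Icc (0 : ℝ) 1, closedBall (t : ℂ) (32 * ρ) ⊆ U := by
    rw [h32]
    exact hRU
  have hloc : ∀ z ∈ closedBall (c : ℂ) ρ, ‖f z‖ ≤ 4 * ((n + 1) * (9 * ρ / δ) ^ n * ε) := by
    intro z hz
    refine locR hρ hU (hRU' c hcI) hfd hH0 hH hA hnK hinj s hs ?_ hδ ?_ (fun i _ => hε i) hε0 hz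
    · intro i hi
      rw [mem_closedBall_iff_norm, hnorm, abs_le]
      have := hxc i hi
      constructor <;> linarith
    · intro i _ j _ hij
      rw [hnorm]
      exact hsep i j hij
  have hdist : |t - c| ≤ k * ρ := by
    have h1 : |t - c| ≤ 1 := by
      rw [abs_le]
      constructor
      · linarith [ht.1, hcI.2]
      · linarith [ht.2, hcI.1]
    have h2 : 1 ≤ k * ρ := by
      have := Nat.le_ceil (1 / ρ)
      rw [div_le_iff₀ hρ] at this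
      exact this
    linarith
  have h1 := chain hρ hU hRU' hfd hH0 hH hA hcI hloc k t ht hdist z hz
  refine h1.trans ?_
  have h2 : (9 * ρ / δ) ^ n = (9 * ρ) ^ n * (1 / δ) ^ n := by rw [← mul_pow]; ring
  have h3 : (1 / δ) ^ n ≤ (1 / δ) ^ (K₀ * n) := by
    refine pow_le_pow_right₀ ?_ ?_
    · rw [le_div_iff₀ hδ]
      linarith
    · exact Nat.le_mul_of_pos_left n (by omega)
  have h4 : 0 ≤ 4 * ((n : ℝ) + 1) * (9 * ρ) ^ n * Kd A ^ k := by
    have := Kd_one A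
    positivity
  have h5 : 0 ≤ (1 / δ) ^ (K₀ * n) := by positivity
  calc 4 * ((n + 1) * (9 * ρ / δ) ^ n * ε) * Kd A ^ k = (4 * ((n : ℝ) + 1) * (9 * ρ) ^ n * Kd A ^ k) * (1 / δ) ^ n * ε := by
        rw [h2]; ring
    _ ≤ (4 * ((n : ℝ) + 1) * (9 * ρ) ^ n * Kd A ^ k) * (1 / δ) ^ (K₀ * n) * ε := by
        exact mul_le_mul_of_nonneg_right (mul_le_mul_of_nonneg_left h3 h4) hε0
    _ ≤ (1 + 4 * ((n : ℝ) + 1) * (9 * ρ) ^ n * Kd A ^ k) * (1 / δ) ^ (K₀ * n) * ε := by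
        refine mul_le_mul_of_nonneg_right (mul_le_mul_of_nonneg_right (by linarith) h5) hε0


theorem Kd_eq (A : ℕ) : Kd A = 1024 ^ A := by
  unfold Kd
  have h1 : (2 : ℝ) * (A * Real.log 32) = ((2 * A : ℕ) : ℝ) * Real.log 32 := by push_cast; ring
  rw [h1, Real.exp_nat_mul, Real.exp_log (by norm_num), pow_mul]
  norm_num

theorem Kd_small (A : ℕ) : (2 / 7 : ℝ) ^ (6 * A + 1 + 1) * Kd A ≤ 1 / 4 := by
  rw [Kd_eq]
  have h1 : (2 / 7 : ℝ) ^ (6 * A + 1 + 1) * 1024 ^ A = (((2 / 7 : ℝ) ^ 6) * 1024) ^ A * (2 / 7) ^ 2 := by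
    rw [mul_pow, ← pow_mul, pow_add, pow_add]
    ring
  rw [h1]
  have h2 : (((2 / 7 : ℝ) ^ 6) * 1024) ^ A ≤ 1 := pow_le_one₀ (by positivity) (by norm_num)
  calc (((2 / 7 : ℝ) ^ 6) * 1024) ^ A * (2 / 7) ^ 2 ≤ 1 * (2 / 7) ^ 2 := mul_le_mul_of_nonneg_right h2 (by positivity)
    _ ≤ 1 / 4 := by norm_num

theorem floor32 : ⌊(1 : ℝ) / (1 / 32)⌋₊ + 1 = 33 := by
  have h1 : (1 : ℝ) / (1 / 32) = ((32 : ℕ) : ℝ) := by norm_num
  rw [h1, Nat.floor_natCast]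

end Pool.Agent.Helper85.OA
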