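import Pool.Agent.Helper85.OA.Cls
import Pool.Agent.Helper85.OA.RemN

/-! OA (algebraic charts of leaves), step 4: functions of the class on segments are algebraic functions of one variable;
Remez and Bernstein inequalities, exponent linear in the degree. -/

set_option autoImplicit false

namespace Pool.Agent.Helper85.OA

open MvPolynomial Pool.Agent.Helper76.RL Metric Function Pool.Agent.Helper84.MT Pool.Agent.Helper85.AR

variable {e M : ℕ}

theorem Alg2.mono {g g' : ℕ} (h : g ≤ g') {U : Set ℂ} {f : ℂ → ℂ} (hf : Alg2 g U f) : Alg2 g' U f := by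
  obtain ⟨H, h0, h1, h2, h3⟩ := hf
  exact ⟨H, h0, h1.trans h, fun j => (h2 j).trans h, h3⟩

/-- the complex line -/
noncomputable def ln (y z : Fin e → ℂ) (ζ : ℂ) : Fin e → ℂ := fun i => y i + ζ * (z i - y i)

theorem ln_diff (y z : Fin e → ℂ) : Differentiable ℂ (ln y z) := by
  rw [differentiable_pi]
  intro i
  unfold ln
  fun_prop

/-- restriction of coefficients to the line -/
noncomputable def lnP (y z : Fin e → ℂ) : MvPolynomial (Fin e) ℂ →ₐ[ℂ] Polynomial ℂ :=
  aeval (fun i => Polynomial.C (y i) + Polynomial.C (z i - y i) * Polynomial.X)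

theorem lnP_eval (y z : Fin e → ℂ) (P : MvPolynomial (Fin e) ℂ) (ζ : ℂ) :
    (lnP y z P).eval ζ = eval (ln y z ζ) P := by
  induction P using MvPolynomial.induction_on with
  | C a => simp [lnP]
  | add p q hp hq => rw [map_add, Polynomial.eval_add, map_add, hp, hq]
  | mul_X p j hp =>
    rw [map_mul, Polynomial.eval_mul, map_mul, hp, eval_X]
    congr 1
    unfold lnP ln
    rw [aeval_X]
    simp only [Polynomial.eval_add, Polynomial.eval_mul, Polynomial.eval_C, Polynomial.eval_X]
    ring

theorem lnP_deg (y z : Fin e → ℂ) (P : MvPolynomial (Fin e) ℂ) : (lnP y z P).natDegree ≤ P.totalDegree := by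
  classical
  unfold lnP
  rw [aeval_def, eval₂_eq']
  refine Polynomial.natDegree_sum_le_of_forall_le _ _ fun a ha => ?_
  refine (Polynomial.natDegree_mul_le).trans ?_
  rw [Polynomial.algebraMap_eq, Polynomial.natDegree_C, zero_add]
  have h1 : (∏ j, (Polynomial.C (y j) + Polynomial.C (z j - y j) * Polynomial.X) ^ a j).natDegree ≤ ∑ j, a j := by
    refine (Polynomial.natDegree_prod_le _ _).trans (Finset.sum_le_sum fun j _ => ?_)
    refine (Polynomial.natDegree_pow_le).trans ?_
    have h2 : (Polynomial.C (y j) + Polynomial.C (z j - y j) * Polynomial.X).natDegree ≤ 1 := by compute_degree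
    calc a j * _ ≤ a j * 1 := Nat.mul_le_mul_left _ h2
      _ = a j := mul_one _
  refine h1.trans ?_
  have h3 := le_totalDegree ha
  rwa [Finsupp.sum_fintype _ _ (fun _ => rfl)] at h3

theorem lnP_ev (y z : Fin e → ℂ) (q : Polynomial (MvPolynomial (Fin e) ℂ)) (ζ w : ℂ) :
    (q.map (lnP y z).toRingHom).evalEval ζ w = ev q (ln y z ζ, w) := by
  induction q using Polynomial.induction_on' with
  | add p q hp hq =>
    rw [Polynomial.map_add, ev_add, ← hp, ← hq]
    unfold Polynomial.evalEval
    rw [Polynomial.eval_add, Polynomial.eval_add]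
  | monomial n a =>
    unfold Polynomial.evalEval ev
    rw [Polynomial.map_monomial, Polynomial.map_monomial, Polynomial.eval_monomial, Polynomial.eval_monomial,
      Polynomial.eval_mul, Polynomial.eval_pow, Polynomial.eval_C]
    congr 1
    exact lnP_eval y z a ζ

/-- an affine function -/
theorem alg2_aff (U : Set ℂ) (a b : ℂ) : Alg2 1 U (fun ζ => a + ζ * b) := by
  refine ⟨Polynomial.X - Polynomial.C (Polynomial.C a + Polynomial.C b * Polynomial.X), Polynomial.X_sub_C_ne_zero _,
    (Polynomial.natDegree_X_sub_C_le _), ?_, ?_⟩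
  · intro j
    rw [Polynomial.coeff_sub, Polynomial.coeff_X, Polynomial.coeff_C]
    refine (Polynomial.natDegree_sub_le _ _).trans (max_le ?_ ?_)
    · split_ifs
      · rw [Polynomial.natDegree_one]
        exact Nat.zero_le _
      · rw [Polynomial.natDegree_zero]
        exact Nat.zero_le _
    · split_ifs
      · compute_degree
      · rw [Polynomial.natDegree_zero]
        exact Nat.zero_le _
  · intro ζ _
    unfold Polynomial.evalEval
    simp only [Polynomial.eval_sub, Polynomial.eval_X, Polynomial.eval_C, Polynomial.eval_add, Polynomial.eval_mul]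
    ring

/-- the inverse of an algebraic function -/
theorem alg2_inv {g : ℕ} {U : Set ℂ} {f : ℂ → ℂ} (hf : Alg2 g U f) (h0 : ∀ z ∈ U, f z ≠ 0) :
    Alg2 g U (fun z => (f z)⁻¹) := by
  obtain ⟨H, hH0, hg, hgc, hH⟩ := hf
  refine ⟨H.reverse, ?_, ?_, ?_, ?_⟩
  · rwa [Ne, Polynomial.reverse_eq_zero]
  · exact (Polynomial.reverse_natDegree_le H).trans hg
  · intro j
    rw [Polynomial.coeff_reverse]
    exact hgc _
  · intro z hz
    have h1 := hH z hz
    have h2 := h0 z hz
    have e1 : ∀ (q : Polynomial (Polynomial ℂ)) (w : ℂ), q.evalEval z w = q.eval₂ (Polynomial.evalRingHom z) w := by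
      intro q w
      rw [← Polynomial.eval_map]
      rw [Polynomial.map_evalRingHom_eval]
    rw [e1] at h1 ⊢
    let _ : Invertible (f z) := invertibleOfNonzero h2
    have h3 := (Polynomial.eval₂_reverse_eq_zero_iff (Polynomial.evalRingHom z) (f z) H).mpr h1
    rwa [invOf_eq_inv] at h3

/-- degree of the inverse vertical derivative -/
def gv (e g : ℕ) : ℕ := (g + 1) ^ (e + 1) + (g + 1) ^ (e + 1) * (2 * g) * ((e + 1) * (g + 1)) * (g + 1) ^ (e + 1)

/-- degree of the generators -/
def g2 (e g : ℕ) : ℕ := g + 1 + gv e g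

/-- number of generators -/
def kk (e M : ℕ) : ℕ := e + (M + M)

/-- enumeration of the generators -/
def enu (e M : ℕ) : Vr e M ≃ Fin (kk e M) :=
  (Equiv.sumCongr (Equiv.refl (Fin e)) (finSumFinEquiv (m := M) (n := M))).trans finSumFinEquiv

theorem ev_diff (q : Polynomial (MvPolynomial (Fin e) ℂ)) : Differentiable ℂ (ev q) :=
  (ev_contDiff q).differentiable (by norm_num)

/-- THE GENERATORS ON A SEGMENT -/
theorem gens_leaf {g : ℕ} {c : Fin e → ℝ} {G : Fin M → (Fin e → ℂ) → ℂ}
    {q : Fin M → Polynomial (MvPolynomial (Fin e) ℂ)} (h : ACh g c G q) {y z : Fin e → ℝ}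
    (hy : ∀ i, |y i - c i| ≤ 1) (hz : ∀ i, |z i - c i| ≤ 1) :
    LeafC (kk e M) (g2 e g) 1 (fun s ζ => ptA G q (ln (fun i => (y i : ℂ)) (fun i => (z i : ℂ)) ζ) ((enu e M).symm s)) := by
  set yc : Fin e → ℂ := fun i => (y i : ℂ) with hyc
  set zc : Fin e → ℂ := fun i => (z i : ℂ) with hzc
  set B := ball (fun i => (c i : ℂ)) (4 : ℝ) with hB
  set U : Set ℂ := ln yc zc ⁻¹' B with hU
  have hUo : IsOpen U := isOpen_ball.preimage (ln_diff yc zc).continuous
  have hyU : yc ∈ B := cube_ball hy
  have h0U : (0 : ℂ) ∈ U := by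
    show ln yc zc 0 ∈ B
    have : ln yc zc 0 = yc := by
      funext i
      unfold ln
      ring
    rw [this]
    exact hyU
  -- the neighbourhood of the segment
  have hnb : ∀ t ∈ Set.Icc (0 : ℝ) 1, closedBall (t : ℂ) 1 ⊆ U := by
    intro t ht ζ hζ
    show ln yc zc ζ ∈ B
    rw [hB, mem_ball, dist_eq_norm]
    refine lt_of_le_of_lt ((pi_norm_le_iff_of_nonneg (by norm_num : (0 : ℝ) ≤ 3)).mpr fun i => ?_) (by norm_num)
    rw [Pi.sub_apply]
    unfold ln
    have e1 : yc i + ζ * (zc i - yc i) - (c i : ℂ) =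
        (((1 - t) * (y i - c i) + t * (z i - c i) : ℝ) : ℂ) + (ζ - t) * ((z i - y i : ℝ) : ℂ) := by
      rw [hyc, hzc]
      push_cast
      ring
    rw [e1]
    refine (norm_add_le _ _).trans ?_
    rw [Complex.norm_real, norm_mul, Complex.norm_real, Real.norm_eq_abs, Real.norm_eq_abs]
    have h1 : |(1 - t) * (y i - c i) + t * (z i - c i)| ≤ 1 := by
      have a1 := abs_le.mp (hy i)
      have a2 := abs_le.mp (hz i)
      rw [abs_le]
      constructor <;> nlinarith [ht.1, ht.2]
    have h2 : |z i - y i| ≤ 2 := by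
      have a1 := abs_le.mp (hy i)
      have a2 := abs_le.mp (hz i)
      rw [abs_le]
      constructor <;> linarith [a1.1, a1.2, a2.1, a2.2]
    have h3 : ‖ζ - t‖ ≤ 1 := by rwa [mem_closedBall, dist_eq_norm] at hζ
    have h4 : ‖ζ - t‖ * |z i - y i| ≤ 1 * 2 := mul_le_mul h3 h2 (abs_nonneg _) zero_le_one
    linarith
  -- differentiability of the chart
  have hGd : ∀ j, DifferentiableOn ℂ (fun ζ => G j (ln yc zc ζ)) U := fun j =>
    (h.hol j).comp (ln_diff yc zc).differentiableOn (fun ζ hζ => hζ)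
  -- annihilator of the chart
  have hG2 : ∀ j, Alg2 (g + 1) U (fun ζ => G j (ln yc zc ζ)) := by
    intro j
    refine ⟨(q j).map (lnP yc zc).toRingHom, ?_, ?_, ?_, ?_⟩
    · intro h0
      apply h.simple j yc hyU
      have h1 : (Polynomial.derivative (q j)).map (lnP yc zc).toRingHom = 0 := by
        rw [← Polynomial.derivative_map, h0, Polynomial.derivative_zero]
      have h2 := lnP_ev yc zc (Polynomial.derivative (q j)) 0 (G j yc)
      rw [h1] at h2
      have h3 : ln yc zc 0 = yc := by
        funext i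
        unfold ln
        ring
      rw [h3] at h2
      rw [← h2]
      unfold Polynomial.evalEval
      simp
    · exact (Polynomial.natDegree_map_le).trans ((h.deg j).trans (Nat.le_succ g))
    · intro i
      rw [Polynomial.coeff_map]
      exact (lnP_deg yc zc _).trans ((h.degc j i).trans (Nat.le_succ g))
    · intro ζ hζ
      rw [lnP_ev]
      exact h.root j _ hζ
  refine ⟨U, hUo, hnb, ?_, ?_⟩
  · intro s
    obtain ⟨s', rfl⟩ := (enu e M).surjective s
    simp only [Equiv.symm_apply_apply]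
    rcases s' with i | j | j
    · show DifferentiableOn ℂ (fun ζ => ln yc zc ζ i) U
      exact (differentiable_pi.mp (ln_diff yc zc) i).differentiableOn
    · exact hGd j
    · show DifferentiableOn ℂ (fun ζ => (ev (Polynomial.derivative (q j)) (ln yc zc ζ, G j (ln yc zc ζ)))⁻¹) U
      refine DifferentiableOn.inv ?_ (fun ζ hζ => h.simple j _ hζ)
      exact (ev_diff _).comp_differentiableOn ((ln_diff yc zc).differentiableOn.prodMk (hGd j))
  · intro s
    obtain ⟨s', rfl⟩ := (enu e M).surjective s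
    simp only [Equiv.symm_apply_apply]
    rcases s' with i | j | j
    · show Alg2 _ U (fun ζ => yc i + ζ * (zc i - yc i))
      refine Alg2.mono ?_ (alg2_aff U _ _)
      unfold g2
      omega
    · refine Alg2.mono ?_ (hG2 j)
      unfold g2
      omega
    · show Alg2 _ U (fun ζ => (ev (Polynomial.derivative (q j)) (ln yc zc ζ, G j (ln yc zc ζ)))⁻¹)
      refine alg2_inv ?_ (fun ζ hζ => h.simple j _ hζ)
      -- the generators of the vertical derivative
      set Φ : Fin (e + 1) → ℂ → ℂ := Fin.cons (fun ζ => G j (ln yc zc ζ)) (fun i ζ => yc i + ζ * (zc i - yc i)) with hΦ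
      have hd : ∀ s, DifferentiableOn ℂ (Φ s) U := by
        intro s
        refine Fin.cases ?_ (fun i => ?_) s
        · rw [hΦ, Fin.cons_zero]
          exact hGd j
        · rw [hΦ, Fin.cons_succ]
          fun_prop
      have hA : ∀ s, Alg2 (g + 1) U (Φ s) := by
        intro s
        refine Fin.cases ?_ (fun i => ?_) s
        · rw [hΦ, Fin.cons_zero]
          exact hG2 j
        · rw [hΦ, Fin.cons_succ]
          exact Alg2.mono (by omega) (alg2_aff U _ _)
      have hP := emb_deg (e := e) Fin.succ (0 : Fin (e + 1)) (Polynomial.derivative (q j)) (g := g)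
        ((Polynomial.natDegree_derivative_le _).trans ((Nat.sub_le _ _).trans (h.deg j)))
        (totalDegree_coeff_derivative_le g (h.degc j))
      obtain ⟨Q, hQ0, hQ1, hQ2, hQ3⟩ := comp_ann hUo (by omega) hd hA
        (emb Fin.succ 0 (Polynomial.derivative (q j))) hP
      refine ⟨Q, hQ0, hQ1.trans ?_, fun i => (hQ2 i).trans ?_, fun ζ hζ => ?_⟩
      · unfold g2 gv
        omega
      · unfold g2 gv
        omega
      · have h1 := hQ3 ζ hζ
        rw [eval_emb] at h1
        exact h1

/-- degree of the annihilator of a function of the class -/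
def aa (e M g : ℕ) : ℕ := g2 e g ^ kk e M * (4 * g + 3) * (kk e M * g2 e g) * g2 e g ^ kk e M

/-- functions of the class on a segment -/
theorem class_algF {g : ℕ} {c : Fin e → ℝ} {G : Fin M → (Fin e → ℂ) → ℂ}
    {q : Fin M → Polynomial (MvPolynomial (Fin e) ℂ)} (h : ACh g c G q) {D : ℕ} {f : (Fin e → ℝ) → ℝ}
    (hf : f ∈ alA g c G q D) {y z : Fin e → ℝ} (hy : ∀ i, |y i - c i| ≤ 1) (hz : ∀ i, |z i - c i| ≤ 1) :
    ∃ φ : ℂ → ℂ, AlgF (aa e M g * D) 1 φ ∧
      ∀ u ∈ Set.Icc (0 : ℝ) 1, ((f (fun i => y i + u * (z i - y i)) : ℝ) : ℂ) = φ (u : ℂ) := by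
  obtain ⟨P, hP, hfP⟩ := hf
  have h1 := (gens_leaf h hy hz).algF (by unfold g2; omega) (rename (enu e M) P)
    ((totalDegree_rename_le _ P).trans hP)
  refine ⟨fun ζ => eval (fun s => ptA G q (ln (fun i => (y i : ℂ)) (fun i => (z i : ℂ)) ζ) ((enu e M).symm s))
    (rename (enu e M) P), ?_, ?_⟩
  · have e1 : aa e M g * D = g2 e g ^ kk e M * ((4 * g + 3) * D) * (kk e M * g2 e g) * g2 e g ^ kk e M := by
      unfold aa
      ring
    rw [e1]
    exact h1
  · intro u hu
    have hc : ∀ i, |(y i + u * (z i - y i)) - c i| ≤ 1 := by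
      intro i
      have a1 := abs_le.mp (hy i)
      have a2 := abs_le.mp (hz i)
      rw [abs_le]
      constructor <;> nlinarith [hu.1, hu.2]
    rw [hfP _ hc]
    show _ = eval (fun s => ptA G q (ln (fun i => (y i : ℂ)) (fun i => (z i : ℂ)) (u : ℂ)) ((enu e M).symm s))
      (rename (enu e M) P)
    rw [eval_rename]
    have e2 : (fun s => ptA G q (ln (fun i => (y i : ℂ)) (fun i => (z i : ℂ)) (u : ℂ)) ((enu e M).symm s)) ∘ (enu e M) =
        ptA G q (fun i => ((y i + u * (z i - y i) : ℝ) : ℂ)) := by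
      funext s
      rw [comp_apply, Equiv.symm_apply_apply]
      have e3 : ln (fun i => (y i : ℂ)) (fun i => (z i : ℂ)) (u : ℂ) = fun i => ((y i + u * (z i - y i) : ℝ) : ℂ) := by
        funext i
        unfold ln
        push_cast
        ring
      rw [e3]
    rw [e2]

/-- Remez exponents -/
def c0 (e M g : ℕ) : ℕ := 198 * (aa e M g + 1) + e

/-- REMEZ AND BERNSTEIN on segments -/
theorem class_seg (e M g D : ℕ) : ∃ B : ℝ, 0 ≤ B ∧ ∀ (c : Fin e → ℝ)
    (G : Fin M → (Fin e → ℂ) → ℂ) (q : Fin M → Polynomial (MvPolynomial (Fin e) ℂ)), ACh g c G q →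
    ∀ f ∈ alA g c G q D, ∀ y z : Fin e → ℝ, (∀ i, |y i - c i| ≤ 1) → (∀ i, |z i - c i| ≤ 1) →
      RemS (c0 e M g * (D + 1)) B (fun u => f (fun i => y i + u * (z i - y i))) ∧
        BmS B (fun u => f (fun i => y i + u * (z i - y i))) := by
  set A := aa e M g * D with hA
  obtain ⟨C₁, hC₁, h1⟩ := sepRN A 1 one_pos (6 * A + 1) (by omega) (Kd_small A)
  obtain ⟨C₂, hC₂, h2⟩ := oscL A 1 one_pos
  refine ⟨max C₁ C₂, le_max_of_le_left (by linarith), ?_⟩
  intro c G q h f hf y z hy hz
  obtain ⟨φ, hφ, hφf⟩ := class_algF h hf hy hz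
  have hn : ∀ u ∈ Set.Icc (0 : ℝ) 1, |f (fun i => y i + u * (z i - y i))| = ‖φ (u : ℂ)‖ := by
    intro u hu
    rw [← hφf u hu, Complex.norm_real, Real.norm_eq_abs]
  constructor
  · have h3 : RemS ((⌊(1 : ℝ) / (1 / 32)⌋₊ + 1) * (6 * A + 1)) C₁ (fun u => f (fun i => y i + u * (z i - y i))) := by
      intro x δ ε hδ hx hsep hε u hu
      rw [hn u hu]
      exact h1 φ hφ x hx δ hδ hsep ε (fun i => by rw [← hn _ (hx i)]; exact hε i) u hu u
        (mem_closedBall_self (by norm_num))
    refine h3.mono ?_ (by linarith) (le_max_left _ _)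
    rw [floor32]
    unfold c0
    have h4 : A ≤ aa e M g * D := le_rfl
    nlinarith [Nat.zero_le e, Nat.zero_le D, Nat.zero_le (aa e M g)]
  · have h3 : BmS C₂ (fun u => f (fun i => y i + u * (z i - y i))) := by
      intro N hN u hu u' hu'
      have h4 := h2 φ hφ 0 1 le_rfl one_pos (by norm_num) N (fun t ht => by
        have ht' : t ∈ Set.Icc (0 : ℝ) 1 := by rwa [zero_add] at ht
        rw [← hn t ht']
        exact hN t ht') u (by rwa [zero_add]) u' (by rwa [zero_add])
      rw [div_one, ← hφf u hu, ← hφf u' hu', ← Complex.ofReal_sub, Complex.norm_real, Real.norm_eq_abs] at h4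
      exact h4
    exact h3.mono (le_max_right _ _)

end Pool.Agent.Helper85.OA
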